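import Pool.Agent.W109.GA.Low

/-!
Project GA (helper78), task GA-15 (helper109). Part 3: the lower bound for the mass and `S_SELB`.
-/

set_option autoImplicit false

namespace Pool.Agent.W109.GA

open Finset
open Pool.Agent.H376R2.MR Pool.Agent.W78.GA

variable {t c : ℤ}

/-- pairs `(x, y)`, `1 ≤ y ≤ x ≤ X`, with `x` coprime to `Q` and to `y` -/
def ZX (Q X : ℕ) : Finset (ℕ × ℕ) :=
  ((Icc 1 X) ×ˢ (Icc 1 X)).filter (fun p => p.2 ≤ p.1 ∧ Nat.Coprime p.1 Q ∧ Nat.Coprime p.1 p.2)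

/-- the same without coprimality of `x`, `y` -/
def AX (Q X : ℕ) : Finset (ℕ × ℕ) :=
  ((Icc 1 X) ×ˢ (Icc 1 X)).filter (fun p => p.2 ≤ p.1 ∧ Nat.Coprime p.1 Q)

lemma mem_ZX {Q X : ℕ} {p : ℕ × ℕ} : p ∈ ZX Q X ↔ 1 ≤ p.1 ∧ p.1 ≤ X ∧ 1 ≤ p.2 ∧ p.2 ≤ p.1 ∧
    Nat.Coprime p.1 Q ∧ Nat.Coprime p.1 p.2 := by
  unfold ZX
  rw [mem_filter, mem_product, mem_Icc, mem_Icc]
  constructor
  · rintro ⟨⟨h1, h2⟩, h3, h4, h5⟩
    exact ⟨h1.1, h1.2, h2.1, h3, h4, h5⟩
  · rintro ⟨h1, h2, h3, h4, h5, h6⟩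
    exact ⟨⟨⟨h1, h2⟩, h3, h4.trans h2⟩, h4, h5, h6⟩

lemma mem_AX {Q X : ℕ} {p : ℕ × ℕ} : p ∈ AX Q X ↔ 1 ≤ p.1 ∧ p.1 ≤ X ∧ 1 ≤ p.2 ∧ p.2 ≤ p.1 ∧
    Nat.Coprime p.1 Q := by
  unfold AX
  rw [mem_filter, mem_product, mem_Icc, mem_Icc]
  constructor
  · rintro ⟨⟨h1, h2⟩, h3, h4⟩
    exact ⟨h1.1, h1.2, h2.1, h3, h4⟩
  · rintro ⟨h1, h2, h3, h4, h5⟩
    exact ⟨⟨⟨h1, h2⟩, h3, h4.trans h2⟩, h4, h5⟩

lemma sum_inv_sq (X : ℕ) : ∑ g ∈ Icc 1 X, 1 / (g : ℝ) ^ 2 ≤ 2 := by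
  have key : ∀ X : ℕ, 1 ≤ X → ∑ g ∈ Icc 1 X, 1 / (g : ℝ) ^ 2 ≤ 2 - 1 / (X : ℝ) := by
    intro X hX
    induction X, hX using Nat.le_induction with
    | base => norm_num
    | succ n hn ih =>
      rw [Finset.sum_Icc_succ_top (by omega)]
      have hn' : (1 : ℝ) ≤ n := by exact_mod_cast hn
      have h1 : 1 / ((n + 1 : ℕ) : ℝ) ^ 2 ≤ 1 / (n : ℝ) - 1 / ((n + 1 : ℕ) : ℝ) := by
        push_cast
        rw [div_sub_div _ _ (by linarith) (by linarith), div_le_div_iff₀ (by positivity)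
          (by positivity)]
        nlinarith
      linarith
  rcases Nat.eq_zero_or_pos X with h | h
  · subst h; simp
  · have := key X h
    have h2 : (0 : ℝ) ≤ 1 / (X : ℝ) := by positivity
    linarith

/-- dividing by the gcd -/
lemma sum_AX_le (Q X : ℕ) :
    ∑ p ∈ AX Q X, 1 / (p.1 : ℝ) ^ 2 ≤ 2 * ∑ p ∈ ZX Q X, 1 / (p.1 : ℝ) ^ 2 := by
  classical
  have h1 : ∑ p ∈ AX Q X, 1 / (p.1 : ℝ) ^ 2 ≤
      ∑ q ∈ (Icc 1 X) ×ˢ (ZX Q X), (1 / (q.1 : ℝ) ^ 2) * (1 / (q.2.1 : ℝ) ^ 2) := by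
    let f : ℕ × ℕ → ℕ × (ℕ × ℕ) := fun p =>
      (Nat.gcd p.1 p.2, (p.1 / Nat.gcd p.1 p.2, p.2 / Nat.gcd p.1 p.2))
    have hinj : Set.InjOn f (AX Q X) := by
      intro p _ q _ hpq
      simp only [f, Prod.mk.injEq] at hpq
      obtain ⟨e1, e2, e3⟩ := hpq
      have p1 := Nat.div_mul_cancel (Nat.gcd_dvd_left p.1 p.2)
      have p2 := Nat.div_mul_cancel (Nat.gcd_dvd_right p.1 p.2)
      have q1 := Nat.div_mul_cancel (Nat.gcd_dvd_left q.1 q.2)
      have q2 := Nat.div_mul_cancel (Nat.gcd_dvd_right q.1 q.2)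
      apply Prod.ext
      · rw [← p1, ← q1, e2, e1]
      · rw [← p2, ← q2, e3, e1]
    have h2 : ∀ p ∈ AX Q X, 1 / (p.1 : ℝ) ^ 2 =
        (fun q : ℕ × (ℕ × ℕ) => (1 / (q.1 : ℝ) ^ 2) * (1 / (q.2.1 : ℝ) ^ 2)) (f p) := by
      intro p hp
      simp only [f]
      have p1 := Nat.div_mul_cancel (Nat.gcd_dvd_left p.1 p.2)
      have p1' : (p.1 : ℝ) = ((p.1 / Nat.gcd p.1 p.2 : ℕ) : ℝ) * (Nat.gcd p.1 p.2 : ℝ) := by
        exact_mod_cast p1.symm
      nth_rewrite 1 [p1']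
      rw [mul_pow, one_div_mul_one_div, mul_comm]
    rw [Finset.sum_congr rfl h2, ← Finset.sum_image (f := fun q : ℕ × (ℕ × ℕ) =>
      (1 / (q.1 : ℝ) ^ 2) * (1 / (q.2.1 : ℝ) ^ 2)) hinj]
    apply Finset.sum_le_sum_of_subset_of_nonneg
    · intro q hq
      rw [mem_image] at hq
      obtain ⟨p, hp, rfl⟩ := hq
      rw [mem_AX] at hp
      obtain ⟨a1, a2, a3, a4, a5⟩ := hp
      have hg : 0 < Nat.gcd p.1 p.2 := Nat.gcd_pos_of_pos_left _ (by omega)
      have hg1 : Nat.gcd p.1 p.2 ≤ p.1 := Nat.gcd_le_left _ (by omega)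
      have hg2 : Nat.gcd p.1 p.2 ≤ p.2 := Nat.gcd_le_right _ (by omega)
      rw [mem_product, mem_Icc, mem_ZX]
      simp only [f]
      refine ⟨⟨hg, hg1.trans a2⟩, Nat.div_pos hg1 hg, (Nat.div_le_self _ _).trans a2,
        Nat.div_pos hg2 hg, Nat.div_le_div_right a4, ?_, Nat.coprime_div_gcd_div_gcd hg⟩
      exact Nat.Coprime.coprime_dvd_left (Nat.div_dvd_of_dvd (Nat.gcd_dvd_left _ _)) a5
    · intro q _ _
      positivity
  refine h1.trans ?_
  rw [← Finset.sum_product' (Icc 1 X) (ZX Q X)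
    (fun g p => (1 / (g : ℝ) ^ 2) * (1 / (p.1 : ℝ) ^ 2)) |>.symm, ← Finset.sum_mul_sum]
  exact mul_le_mul_of_nonneg_right (sum_inv_sq X) (Finset.sum_nonneg fun _ _ => by positivity)

lemma sum_AX_ge (Q X : ℕ) (hQ : 1 ≤ Q) (hX : 1 ≤ X) :
    1 / ((Q : ℝ) + 1) * Real.log ((X : ℝ) / Q) ≤ ∑ p ∈ AX Q X, 1 / (p.1 : ℝ) ^ 2 := by
  classical
  have hQR : (1 : ℝ) ≤ Q := by exact_mod_cast hQ
  have h1 : ∑ p ∈ AX Q X, 1 / (p.1 : ℝ) ^ 2 =
      ∑ x ∈ (Icc 1 X).filter (fun x => Nat.Coprime x Q), 1 / (x : ℝ) := by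
    have e : ∀ x ∈ (Icc 1 X).filter (fun x => Nat.Coprime x Q), 1 / (x : ℝ) =
        ∑ y ∈ (AX Q X).filter (fun p => p.1 = x), 1 / (y.1 : ℝ) ^ 2 := by
      intro x hx
      rw [mem_filter, mem_Icc] at hx
      have hc : ((AX Q X).filter (fun p => p.1 = x)) = (Icc 1 x).image (fun y => (x, y)) := by
        ext ⟨a, b⟩
        rw [mem_filter, mem_AX, mem_image]
        constructor
        · rintro ⟨⟨b1, b2, b3, b4, b5⟩, b6⟩
          simp only at b1 b2 b3 b4 b5 b6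
          subst b6
          exact ⟨b, mem_Icc.2 ⟨b3, b4⟩, rfl⟩
        · rintro ⟨y, hy, hyy⟩
          rw [mem_Icc] at hy
          simp only [Prod.mk.injEq] at hyy
          obtain ⟨rfl, rfl⟩ := hyy
          exact ⟨⟨hx.1.1, hx.1.2, hy.1, hy.2, hx.2⟩, rfl⟩
      rw [hc, Finset.sum_image (by
        intro a _ b _ hab
        simpa using hab)]
      simp only
      rw [sum_const, Nat.card_Icc]
      have hx0 : (x : ℝ) ≠ 0 := by
        have : 0 < x := hx.1.1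
        exact_mod_cast this.ne'
      simp only [nsmul_eq_mul]
      have : ((x + 1 - 1 : ℕ) : ℝ) = x := by
        congr 1
      rw [this]
      field_simp
    rw [Finset.sum_congr rfl e]
    symm
    apply Finset.sum_fiberwise_of_maps_to
    intro p hp
    rw [mem_AX] at hp
    rw [mem_filter, mem_Icc]
    exact ⟨⟨hp.1, hp.2.1⟩, hp.2.2.2.2⟩
  rw [h1]
  set J := (X - 1) / Q with hJ
  have h2 : ∑ j ∈ Icc 1 J, 1 / ((Q : ℝ) + 1) * (j : ℝ)⁻¹ ≤
      ∑ x ∈ (Icc 1 X).filter (fun x => Nat.Coprime x Q), 1 / (x : ℝ) := by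
    have hinj : Set.InjOn (fun j : ℕ => 1 + Q * j) (Icc 1 J) := by
      intro a _ b _ hab
      simp only at hab
      have : Q * a = Q * b := by omega
      exact Nat.eq_of_mul_eq_mul_left (by omega) this
    calc ∑ j ∈ Icc 1 J, 1 / ((Q : ℝ) + 1) * (j : ℝ)⁻¹
        ≤ ∑ j ∈ Icc 1 J, (fun x : ℕ => 1 / (x : ℝ)) (1 + Q * j) := by
          apply Finset.sum_le_sum
          intro j hj
          rw [mem_Icc] at hj
          have hj' : (1 : ℝ) ≤ j := by exact_mod_cast hj.1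
          simp only
          push_cast
          rw [← one_div, one_div_mul_one_div]
          apply one_div_le_one_div_of_le (by positivity)
          nlinarith
      _ = ∑ x ∈ (Icc 1 J).image (fun j : ℕ => 1 + Q * j), 1 / (x : ℝ) := by
          rw [Finset.sum_image hinj]
      _ ≤ _ := by
          apply Finset.sum_le_sum_of_subset_of_nonneg
          · intro x hx
            rw [mem_image] at hx
            obtain ⟨j, hj, rfl⟩ := hx
            rw [mem_Icc] at hj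
            rw [mem_filter, mem_Icc]
            have h3 : Q * J ≤ X - 1 := Nat.mul_div_le _ _
            have h4 : Q * j ≤ Q * J := Nat.mul_le_mul_left _ hj.2
            refine ⟨⟨by omega, by omega⟩, ?_⟩
            rw [Nat.coprime_add_mul_left_left]
            exact Nat.coprime_one_left Q
          · intro x _ _
            positivity
  refine le_trans ?_ h2
  rw [← Finset.mul_sum]
  apply mul_le_mul_of_nonneg_left _ (by positivity)
  have h3 := log_add_one_le_harmonic J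
  rw [harmonic_eq_sum_Icc] at h3
  push_cast at h3
  refine le_trans ?_ h3
  have h4 : X ≤ Q * (J + 1) := by
    have := Nat.lt_mul_div_succ (X - 1) (show 0 < Q by omega)
    rw [← hJ] at this
    have h5 : X - 1 < Q * (J + 1) := this
    omega
  have h5 : (X : ℝ) ≤ Q * (J + 1) := by exact_mod_cast h4
  have hX' : (1 : ℝ) ≤ X := by exact_mod_cast hX
  apply Real.log_le_log (by positivity)
  rw [div_le_iff₀ (by linarith)]
  linarith

/-- the element `x + Q y ω` -/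
def elt (Q : ℕ) (p : ℕ × ℕ) : Qd t c := ⟨(p.1 : ℤ), (Q : ℤ) * p.2⟩

lemma elt_inj {Q : ℕ} (hQ : 1 ≤ Q) : Function.Injective (elt (t := t) (c := c) Q) := by
  intro p q hpq
  have h1 := congrArg QuadraticAlgebra.re hpq
  have h2 := congrArg QuadraticAlgebra.im hpq
  simp only [elt] at h1 h2
  have hQ' : (Q : ℤ) ≠ 0 := by
    have : 0 < Q := hQ
    exact_mod_cast this.ne'
  have h3 := mul_left_cancel₀ hQ' h2
  apply Prod.ext
  · exact_mod_cast h1
  · exact_mod_cast h3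

lemma elt_prim {Q X : ℕ} {p : ℕ × ℕ} (hp : p ∈ ZX Q X) : prim (elt Q p : Qd t c) := by
  rw [mem_ZX] at hp
  unfold prim elt
  simp only
  have h : Nat.Coprime p.1 (Q * p.2) := Nat.Coprime.mul_right hp.2.2.2.2.1 hp.2.2.2.2.2
  have e : ((Q : ℤ) * (p.2 : ℤ)) = ((Q * p.2 : ℕ) : ℤ) := by push_cast; ring
  rw [e, Int.gcd_natCast_natCast]
  exact h

/-- the auxiliary modulus -/
def QQ (t c : ℤ) : ℕ := 6 * (t ^ 2 - 4 * c).natAbs

/-- the norm bound -/
def CC (t c : ℤ) : ℕ := 1 + t.natAbs * QQ t c + c.natAbs * QQ t c ^ 2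

lemma one_le_QQ (hD : t ^ 2 < 4 * c) : 1 ≤ QQ t c := by
  unfold QQ
  have : 0 < (t ^ 2 - 4 * c).natAbs := Int.natAbs_pos.2 (by linarith)
  omega

lemma elt_nm_le (hD : t ^ 2 < 4 * c) {Q X : ℕ} {p : ℕ × ℕ} (hp : p ∈ ZX Q X) :
    nm (elt Q p : Qd t c) ≤ (1 + t.natAbs * Q + c.natAbs * Q ^ 2) * p.1 ^ 2 := by
  rw [mem_ZX] at hp
  have h1 := nm_cast hD (elt Q p : Qd t c)
  have h2 : (nm (elt Q p : Qd t c) : ℤ) ≤
      (((1 + t.natAbs * Q + c.natAbs * Q ^ 2) * p.1 ^ 2 : ℕ) : ℤ) := by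
    rw [h1]
    push_cast
    simp only [elt]
    have hc : 0 < c := by nlinarith [sq_nonneg t]
    have hx : (0 : ℤ) ≤ p.1 := by positivity
    have hy : (0 : ℤ) ≤ p.2 := by positivity
    have hyx : (p.2 : ℤ) ≤ p.1 := by exact_mod_cast hp.2.2.2.1
    have hQ0 : (0 : ℤ) ≤ Q := by positivity
    have ht : t ≤ |t| := le_abs_self t
    have ht0 : 0 ≤ |t| := abs_nonneg t
    rw [abs_of_pos hc]
    have a1 : t * (p.1 : ℤ) * ((Q : ℤ) * p.2) ≤ |t| * Q * (p.1 : ℤ) ^ 2 := by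
      calc t * (p.1 : ℤ) * ((Q : ℤ) * p.2) ≤ |t| * (p.1 : ℤ) * ((Q : ℤ) * p.2) := by
            apply mul_le_mul_of_nonneg_right _ (by positivity)
            exact mul_le_mul_of_nonneg_right ht hx
        _ = (|t| * Q * p.1) * p.2 := by ring
        _ ≤ (|t| * Q * p.1) * p.1 := mul_le_mul_of_nonneg_left hyx (by positivity)
        _ = _ := by ring
    have a2 : c * ((Q : ℤ) * p.2) ^ 2 ≤ c * (Q : ℤ) ^ 2 * (p.1 : ℤ) ^ 2 := by
      have : (p.2 : ℤ) ^ 2 ≤ (p.1 : ℤ) ^ 2 := by nlinarith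
      calc c * ((Q : ℤ) * p.2) ^ 2 = (c * (Q : ℤ) ^ 2) * (p.2 : ℤ) ^ 2 := by ring
        _ ≤ (c * (Q : ℤ) ^ 2) * (p.1 : ℤ) ^ 2 := mul_le_mul_of_nonneg_left this (by positivity)
    linarith
  exact_mod_cast h2

lemma elt_QP (hD : t ^ 2 < 4 * c) {X : ℕ} {p : ℕ × ℕ} (hp : p ∈ ZX (QQ t c) X) :
    QP (Sp t c) (nm (elt (QQ t c) p : Qd t c)) := by
  intro q hq hqn
  have hpr := elt_prim (t := t) (c := c) hp
  have hp' := mem_ZX.1 hp
  have hnQ : ¬ q ∣ QQ t c := by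
    intro h
    have h1 : (q : ℤ) ∣ (nm (elt (QQ t c) p : Qd t c) : ℤ) := by exact_mod_cast hqn
    rw [nm_cast hD] at h1
    simp only [elt] at h1
    have hQz : (q : ℤ) ∣ (QQ t c : ℤ) := by exact_mod_cast h
    have h2 : (q : ℤ) ∣ (p.1 : ℤ) ^ 2 := by
      have e : (p.1 : ℤ) ^ 2 = ((p.1 : ℤ) ^ 2 + t * p.1 * ((QQ t c : ℤ) * p.2) +
          c * ((QQ t c : ℤ) * p.2) ^ 2) - (QQ t c : ℤ) * (t * p.1 * p.2 +
          c * (QQ t c : ℤ) * (p.2 : ℤ) ^ 2) := by ring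
      rw [e]
      exact dvd_sub h1 (hQz.mul_right _)
    have h3 : q ∣ p.1 := by
      have := (Nat.prime_iff_prime_int.1 hq).dvd_of_dvd_pow h2
      exact_mod_cast this
    have h4 : q ∣ Nat.gcd p.1 (QQ t c) := Nat.dvd_gcd h3 h
    rw [hp'.2.2.2.2.1] at h4
    exact hq.one_lt.ne' (Nat.dvd_one.1 h4)
  apply Sp_of hD hpr hq hqn
  · by_contra h5
    have : q ∣ 6 := by
      have h2 := hq.two_le
      interval_cases q
      · norm_num
      · norm_num
      · exact absurd hq (by norm_num)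
    exact hnQ (this.mul_right _)
  · intro h
    apply hnQ
    have : q ∣ (t ^ 2 - 4 * c).natAbs := Int.natCast_dvd.1 h
    exact this.mul_left _

/-- the lower bound in terms of `X` -/
lemma tG_ge (hD : t ^ 2 < 4 * c) (X D : ℕ) (hXD : CC t c * X ^ 2 ≤ D) :
    1 / (CC t c : ℝ) * ∑ p ∈ ZX (QQ t c) X, 1 / (p.1 : ℝ) ^ 2 ≤ 6 * tG (Sp t c) D := by
  classical
  set Q := QQ t c with hQdef
  have hQ1 : 1 ≤ Q := one_le_QQ hD
  have hC : (1 : ℕ) ≤ CC t c := by unfold CC; omega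
  have h1 : 1 / (CC t c : ℝ) * ∑ p ∈ ZX Q X, 1 / (p.1 : ℝ) ^ 2 ≤
      ∑ p ∈ ZX Q X, 1 / (nm (elt Q p : Qd t c) : ℝ) := by
    rw [Finset.mul_sum]
    apply Finset.sum_le_sum
    intro p hp
    have hp' := mem_ZX.1 hp
    have h2 := elt_nm_le hD hp
    have h3 : 0 < nm (elt Q p : Qd t c) := nm_pos hD (prim_ne_zero (elt_prim hp))
    have h4 : (nm (elt Q p : Qd t c) : ℝ) ≤ (CC t c : ℝ) * (p.1 : ℝ) ^ 2 := by
      have : nm (elt Q p : Qd t c) ≤ CC t c * p.1 ^ 2 := h2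
      exact_mod_cast this
    have h5 : (0 : ℝ) < nm (elt Q p : Qd t c) := by exact_mod_cast h3
    rw [one_div_mul_one_div]
    exact one_div_le_one_div_of_le h5 h4
  refine h1.trans ?_
  have hmaps : ∀ p ∈ ZX Q X, nm (elt Q p : Qd t c) ∈ (Icc 1 D).filter (fun n => QP (Sp t c) n) := by
    intro p hp
    have hp' := mem_ZX.1 hp
    have h3 : 0 < nm (elt Q p : Qd t c) := nm_pos hD (prim_ne_zero (elt_prim hp))
    have h2 : nm (elt Q p : Qd t c) ≤ CC t c * p.1 ^ 2 := elt_nm_le hD hp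
    rw [mem_filter, mem_Icc]
    refine ⟨⟨h3, ?_⟩, elt_QP hD hp⟩
    calc nm (elt Q p : Qd t c) ≤ CC t c * p.1 ^ 2 := h2
      _ ≤ CC t c * X ^ 2 := Nat.mul_le_mul_left _ (Nat.pow_le_pow_left hp'.2.1 2)
      _ ≤ D := hXD
  rw [← Finset.sum_fiberwise_of_maps_to hmaps]
  unfold tG
  rw [Finset.mul_sum]
  apply Finset.sum_le_sum
  intro N hN
  rw [mem_filter, mem_Icc] at hN
  have h2 : ∑ p ∈ (ZX Q X).filter (fun p => nm (elt Q p : Qd t c) = N),
      1 / (nm (elt Q p : Qd t c) : ℝ) =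
      (((ZX Q X).filter (fun p => nm (elt Q p : Qd t c) = N)).card : ℝ) * (N : ℝ)⁻¹ := by
    rw [← nsmul_eq_mul, ← sum_const]
    apply Finset.sum_congr rfl
    intro p hp
    rw [mem_filter] at hp
    rw [hp.2, one_div]
  rw [h2]
  have h3 : ((ZX Q X).filter (fun p => nm (elt Q p : Qd t c) = N)).card ≤
      6 * 2 ^ N.primeFactors.card := by
    rw [← Finset.card_image_of_injective _ (elt_inj (t := t) (c := c) hQ1)]
    apply card_norm_le hD (by omega) hN.2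
    intro z hz
    rw [mem_image] at hz
    obtain ⟨p, hp, rfl⟩ := hz
    rw [mem_filter] at hp
    exact ⟨elt_prim hp.1, hp.2⟩
  have h4 : (((ZX Q X).filter (fun p => nm (elt Q p : Qd t c) = N)).card : ℝ) ≤
      6 * 2 ^ N.primeFactors.card := by exact_mod_cast h3
  calc _ ≤ (6 * 2 ^ N.primeFactors.card) * (N : ℝ)⁻¹ :=
        mul_le_mul_of_nonneg_right h4 (by positivity)
    _ = _ := by ring

theorem hG_ge (hD : t ^ 2 < 4 * c) : ∃ c₀ : ℝ, 0 < c₀ ∧ ∀ D : ℕ, 2 ≤ D →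
    c₀ * Real.log D ≤ hG (Sp t c) D := by
  set Q := QQ t c with hQdef
  have hQ1 : 1 ≤ Q := one_le_QQ hD
  have hC : (1 : ℕ) ≤ CC t c := by unfold CC; omega
  have hQR : (1 : ℝ) ≤ Q := by exact_mod_cast hQ1
  have hCR : (1 : ℝ) ≤ CC t c := by exact_mod_cast hC
  set a : ℝ := 1 / (CC t c : ℝ) * (1 / 2 * (1 / ((Q : ℝ) + 1))) / 6 with ha
  have ha0 : 0 < a := by positivity
  set b : ℝ := Real.log (CC t c) / 2 + Real.log 2 + Real.log Q with hb
  have hb0 : 0 ≤ b := by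
    have h1 := Real.log_nonneg hCR
    have h2 := Real.log_nonneg hQR
    have h3 := Real.log_nonneg (show (1 : ℝ) ≤ 2 by norm_num)
    rw [hb]
    linarith
  have main : ∀ D : ℕ, CC t c ≤ D → a * (Real.log D / 2 - b) ≤ hG (Sp t c) D := by
    intro D hDC
    set X := Nat.sqrt (D / CC t c) with hX
    have hX1 : 1 ≤ X := by
      rw [hX, Nat.le_sqrt]
      rw [one_mul]
      exact Nat.div_pos hDC hC
    have h1 : X * X ≤ D / CC t c := Nat.sqrt_le _
    have h2 : CC t c * X ^ 2 ≤ D := by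
      calc CC t c * X ^ 2 = CC t c * (X * X) := by ring
        _ ≤ CC t c * (D / CC t c) := Nat.mul_le_mul_left _ h1
        _ ≤ D := Nat.mul_div_le _ _
    have h3 : D < CC t c * (X + 1) ^ 2 := by
      have h4 : D / CC t c < (X + 1) * (X + 1) := Nat.lt_succ_sqrt _
      have h5 := (Nat.div_lt_iff_lt_mul (show 0 < CC t c from hC)).1 h4
      calc D < (X + 1) * (X + 1) * CC t c := h5
        _ = _ := by ring
    have h4 := tG_ge hD X D h2
    have h5 := sum_AX_le Q X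
    have h6 := sum_AX_ge Q X hQ1 hX1
    have h7 := tG_le (P := Sp t c) D
    have hXR : (1 : ℝ) ≤ X := by exact_mod_cast hX1
    have hDR : (0 : ℝ) < D := by
      have : 0 < D := by omega
      exact_mod_cast this
    have h8 : Real.log D ≤ Real.log (CC t c) + 2 * (Real.log 2 + Real.log X) := by
      have e1 : (D : ℝ) ≤ (CC t c : ℝ) * (2 * X) ^ 2 := by
        have e2 : (D : ℝ) ≤ (CC t c : ℝ) * (X + 1) ^ 2 := by exact_mod_cast h3.le
        refine e2.trans ?_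
        apply mul_le_mul_of_nonneg_left _ (by linarith)
        apply pow_le_pow_left₀ (by linarith)
        linarith
      have e3 := Real.log_le_log hDR e1
      rw [Real.log_mul (by linarith) (by positivity), Real.log_pow,
        Real.log_mul (by norm_num) (by linarith)] at e3
      push_cast at e3
      exact e3
    have h9 : Real.log ((X : ℝ) / Q) = Real.log X - Real.log Q :=
      Real.log_div (by linarith) (by linarith)
    have h10 : Real.log D / 2 - b ≤ Real.log ((X : ℝ) / Q) := by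
      rw [h9, hb]; linarith
    calc a * (Real.log D / 2 - b) ≤ a * Real.log ((X : ℝ) / Q) :=
          mul_le_mul_of_nonneg_left h10 ha0.le
      _ = 1 / (CC t c : ℝ) * (1 / 2 * (1 / ((Q : ℝ) + 1) * Real.log ((X : ℝ) / Q))) / 6 := by
          rw [ha]; ring
      _ ≤ 1 / (CC t c : ℝ) * (∑ p ∈ ZX Q X, 1 / (p.1 : ℝ) ^ 2) / 6 := by
          apply div_le_div_of_nonneg_right _ (by norm_num)
          apply mul_le_mul_of_nonneg_left _ (by positivity)
          linarith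
      _ ≤ tG (Sp t c) D := by linarith
      _ ≤ _ := h7
  -- combine
  set B : ℝ := max (4 * b) (Real.log (CC t c)) + 1 with hB
  have hB1 : 1 ≤ B := by
    have : 0 ≤ max (4 * b) (Real.log (CC t c)) := le_max_of_le_left (by linarith)
    linarith
  refine ⟨min (a / 4) (1 / B), by positivity, fun D hD2 => ?_⟩
  have hlog : 0 ≤ Real.log D := Real.log_nonneg (by exact_mod_cast (by omega : 1 ≤ D))
  rcases le_or_gt (Real.log D) B with h | h
  · have h1 := one_le_hG (P := Sp t c) (show 1 ≤ D by omega)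
    refine le_trans ?_ h1
    calc min (a / 4) (1 / B) * Real.log D ≤ 1 / B * B :=
          mul_le_mul (min_le_right _ _) h hlog (by positivity)
      _ = 1 := by field_simp
  · have h1 : 4 * b ≤ Real.log D := by
      have := le_max_left (4 * b) (Real.log (CC t c))
      linarith
    have h2 : Real.log (CC t c) ≤ Real.log D := by
      have := le_max_right (4 * b) (Real.log (CC t c))
      linarith
    have hDR : (0 : ℝ) < D := by
      have : 0 < D := by omega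
      exact_mod_cast this
    have h3 : CC t c ≤ D := by
      have := (Real.log_le_log_iff (by linarith) hDR).1 h2
      exact_mod_cast this
    refine le_trans ?_ (main D h3)
    calc min (a / 4) (1 / B) * Real.log D ≤ a / 4 * Real.log D :=
          mul_le_mul_of_nonneg_right (min_le_left _ _) hlog
      _ ≤ a * (Real.log D / 2 - b) := by
          have : a * (4 * b) ≤ a * Real.log D := mul_le_mul_of_nonneg_left h1 ha0.le
          linarith

/-- task GA-15 -/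
theorem selb (hD : t ^ 2 < 4 * c) : S_SELB t c := by
  obtain ⟨c₀, hc₀, hG'⟩ := hG_ge hD
  refine ⟨1 / c₀, by positivity, fun D hD2 => ?_⟩
  have hD1 : 1 ≤ D := by omega
  have hG1 := one_le_hG (P := Sp t c) hD1
  refine ⟨hl (Sp t c) D, hl_one hD1, hl_le hD1, ?_, ?_, ?_⟩
  · intro d hd
    exact hl_supp hd
  · rw [h_form D hD1]
    have : 0 < hG (Sp t c) D := by linarith
    exact (inv_pos.2 this).le
  · rw [h_form D hD1]
    have hlog : 0 < Real.log D := Real.log_pos (by exact_mod_cast (by omega : 1 < D))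
    rw [div_div, one_div]
    exact inv_anti₀ (by positivity) (hG' D hD2)

end Pool.Agent.W109.GA
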