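import Pool.Agent.W109.GA.Sel

/-!
Project GA (helper78), task GA-15 (helper109). Part 2: the number of primitive elements of given
norm and the lower bound for the mass.
-/

set_option autoImplicit false

namespace Pool.Agent.W109.GA

open Finset
open Pool.Agent.H376R2.MR Pool.Agent.W78.GA

variable {t c : ℤ}

/-- a prime divisor of the norm of a primitive element does not divide the second coordinate -/
lemma not_dvd_im (hD : t ^ 2 < 4 * c) {z : Qd t c} (hz : prim z) {p : ℕ} (hp : p.Prime)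
    (hpz : p ∣ nm z) : ¬ (p : ℤ) ∣ z.im := by
  intro him
  have h1 : (p : ℤ) ∣ (nm z : ℤ) := by exact_mod_cast hpz
  rw [nm_cast hD] at h1
  have h2 : (p : ℤ) ∣ z.re ^ 2 := by
    have e : z.re ^ 2 = (z.re ^ 2 + t * z.re * z.im + c * z.im ^ 2) -
        z.im * (t * z.re + c * z.im) := by ring
    rw [e]
    exact dvd_sub h1 (him.mul_right _)
  have h3 : (p : ℤ) ∣ z.re := (Nat.prime_iff_prime_int.1 hp).dvd_of_dvd_pow h2
  exact prim_iff.1 hz p hp (natCast_dvd.2 ⟨h3, him⟩)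

/-- prime divisors of norms of primitive elements -/
lemma Sp_of (hD : t ^ 2 < 4 * c) {z : Qd t c} (hz : prim z) {p : ℕ} (hp : p.Prime)
    (hpz : p ∣ nm z) (h5 : 5 ≤ p) (hd : ¬ (p : ℤ) ∣ t ^ 2 - 4 * c) : Sp t c p := by
  refine ⟨hp, h5, hd, ?_⟩
  have him := not_dvd_im hD hz hp hpz
  have hpi := Nat.prime_iff_prime_int.1 hp
  have hcop : IsCoprime (p : ℤ) z.im := by
    rw [Int.isCoprime_iff_gcd_eq_one]
    rcases Nat.Prime.eq_one_or_self_of_dvd hp (Int.gcd (p : ℤ) z.im) (by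
      have := Int.gcd_dvd_left (p : ℤ) z.im
      exact_mod_cast this) with h | h
    · exact h
    · exfalso
      apply him
      have := Int.gcd_dvd_right (p : ℤ) z.im
      rwa [h] at this
  obtain ⟨a, b, hab⟩ := hcop
  refine ⟨-z.re * b, ?_⟩
  have h1 : (p : ℤ) ∣ (nm z : ℤ) := by exact_mod_cast hpz
  rw [nm_cast hD] at h1
  have h2 : (p : ℤ) ∣ z.im ^ 2 * ((-z.re * b) ^ 2 - t * (-z.re * b) + c) := by
    have hb : b * z.im = 1 - a * p := by linarith
    have e : z.im ^ 2 * ((-z.re * b) ^ 2 - t * (-z.re * b) + c) =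
        (z.re ^ 2 + t * z.re * z.im + c * z.im ^ 2) +
        p * (z.re ^ 2 * (-2 * a + a ^ 2 * p) - t * z.re * z.im * a) := by
      have e1 : z.im ^ 2 * ((-z.re * b) ^ 2 - t * (-z.re * b) + c) =
        z.re ^ 2 * (b * z.im) ^ 2 + t * z.re * z.im * (b * z.im) + c * z.im ^ 2 := by ring
      rw [e1, hb]
      ring
    rw [e]
    exact dvd_add h1 (Dvd.intro _ rfl)
  rcases hpi.dvd_or_dvd h2 with h | h
  · exact absurd (hpi.dvd_of_dvd_pow h) him
  · exact h

/-- the elements of norm `N` with determinant divisible by `N` -/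
lemma card_le_six (hD : t ^ 2 < 4 * c) {N : ℕ} (hN : 0 < N) {z₀ : Qd t c} (h0 : nm z₀ = N)
    (F : Finset (Qd t c)) (hF : ∀ z ∈ F, nm z = N ∧ (N : ℤ) ∣ dt z₀ z) : F.card ≤ 6 := by
  classical
  have hNz : (0 : ℤ) < N := by exact_mod_cast hN
  let g : Qd t c → ℤ × Bool := fun z =>
    (dt z₀ z / N, decide (0 ≤ 2 * ip z₀ z + t * dt z₀ z))
  have key : ∀ z ∈ F, (2 * ip z₀ z + t * dt z₀ z) ^ 2 =
      4 * (N : ℤ) ^ 2 - (4 * c - t ^ 2) * (dt z₀ z) ^ 2 := by
    intro z hz
    have h1 := ip_dt hD z₀ z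
    rw [h0, (hF z hz).1] at h1
    have : (2 * ip z₀ z + t * dt z₀ z) ^ 2 =
      4 * (ip z₀ z ^ 2 + t * ip z₀ z * dt z₀ z + c * dt z₀ z ^ 2) -
        (4 * c - t ^ 2) * (dt z₀ z) ^ 2 := by ring
    rw [this, ← h1]
    ring
  have hmaps : ∀ z ∈ F, g z ∈ (Icc (-1 : ℤ) 1) ×ˢ (Finset.univ : Finset Bool) := by
    intro z hz
    rw [mem_product]
    refine ⟨?_, mem_univ _⟩
    obtain ⟨k, hk⟩ := (hF z hz).2
    show dt z₀ z / N ∈ Icc (-1 : ℤ) 1
    rw [hk, Int.mul_ediv_cancel_left k hNz.ne', mem_Icc]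
    have h2 := key z hz
    rw [hk] at h2
    have h3 : (4 * c - t ^ 2) * ((N : ℤ) * k) ^ 2 ≤ 4 * (N : ℤ) ^ 2 := by
      nlinarith [sq_nonneg (2 * ip z₀ z + t * ((N : ℤ) * k))]
    have h4 : (4 * c - t ^ 2) * k ^ 2 ≤ 4 := by
      have h5 : (N : ℤ) ^ 2 * ((4 * c - t ^ 2) * k ^ 2) ≤ (N : ℤ) ^ 2 * 4 := by nlinarith
      exact le_of_mul_le_mul_left h5 (by positivity)
    have h6 : (3 : ℤ) ≤ 4 * c - t ^ 2 := by
      have := three_le_disc hD
      exact_mod_cast this
    have h7 : k ^ 2 ≤ 1 := by nlinarith [sq_nonneg k]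
    constructor <;> nlinarith
  have hinj : Set.InjOn g F := by
    intro z hz z' hz' hzz
    have hz1 := hF z hz
    have hz1' := hF z' hz'
    have e1 : dt z₀ z / N = dt z₀ z' / N := congrArg Prod.fst hzz
    have e2 : decide (0 ≤ 2 * ip z₀ z + t * dt z₀ z) = decide (0 ≤ 2 * ip z₀ z' + t * dt z₀ z') :=
      congrArg Prod.snd hzz
    have e3 : dt z₀ z = dt z₀ z' := by
      rw [← Int.ediv_mul_cancel hz1.2, ← Int.ediv_mul_cancel hz1'.2, e1]
    have k1 := key z hz
    have k2 := key z' hz'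
    rw [e3] at k1 e2
    have k3 : (2 * ip z₀ z + t * dt z₀ z') ^ 2 = (2 * ip z₀ z' + t * dt z₀ z') ^ 2 := by
      rw [k1, k2]
    have e4 : ip z₀ z = ip z₀ z' := by
      rcases sq_eq_sq_iff_eq_or_eq_neg.1 k3 with h | h
      · linarith
      · have e5 : (0 ≤ 2 * ip z₀ z + t * dt z₀ z') ↔ (0 ≤ 2 * ip z₀ z' + t * dt z₀ z') := by
          simpa using e2
        by_cases hs : 0 ≤ 2 * ip z₀ z + t * dt z₀ z'
        · have := e5.1 hs
          linarith
        · have : ¬ 0 ≤ 2 * ip z₀ z' + t * dt z₀ z' := fun h' => hs (e5.2 h')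
          linarith
    have e6 : star z₀ * z = star z₀ * z' := by
      rw [star_mul_eq, star_mul_eq, e3, e4]
    have e7 : nm (star z₀ * (z - z')) = 0 := by
      rw [mul_sub, e6, sub_self, nm_zero]
    rw [nm_mul, nm_star, h0] at e7
    have e8 : nm (z - z') = 0 := by
      rcases Nat.mul_eq_zero.1 e7 with h | h
      · omega
      · exact h
    exact sub_eq_zero.1 ((nm_eq_zero hD).1 e8)
  have := Finset.card_le_card_of_injOn g hmaps hinj
  refine this.trans (le_of_eq ?_)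
  rw [card_product]
  rfl

/-- two primitive elements of the same norm with the same roots have determinant divisible by the
norm -/
lemma dvd_dt (hD : t ^ 2 < 4 * c) {N : ℕ} (hN : 0 < N) (hQ : QP (Sp t c) N) (ρ : ℕ → ℤ)
    (hρ : ∀ p : ℕ, p.Prime → p ∣ N → (p : ℤ) ∣ ρ p ^ 2 - t * ρ p + c)
    {z z' : Qd t c} (hz : prim z) (hz' : prim z') (h1 : nm z = N) (h1' : nm z' = N)
    (hT : ∀ p : ℕ, p.Prime → p ∣ N → (lat p (ρ p) z ↔ lat p (ρ p) z')) :
    (N : ℤ) ∣ dt z z' := by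
  have n1 := nm_cast hD z
  have n2 := nm_cast hD z'
  rw [h1] at n1
  rw [h1'] at n2
  set S : ℤ := z.re * z'.im + z'.re * z.im + t * z.im * z'.im with hS
  have hmul : (N : ℤ) ∣ dt z z' * S := by
    have e : dt z z' * S = z'.im ^ 2 * (z.re ^ 2 + t * z.re * z.im + c * z.im ^ 2) -
        z.im ^ 2 * (z'.re ^ 2 + t * z'.re * z'.im + c * z'.im ^ 2) := by
      rw [hS]; unfold dt; ring
    rw [e, ← n1, ← n2]
    exact dvd_sub (Dvd.intro_left _ rfl) (Dvd.intro_left _ rfl)
  have hcop : IsCoprime (N : ℤ) S := by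
    rw [Int.isCoprime_iff_gcd_eq_one]
    by_contra hne
    obtain ⟨p, hp, hpd⟩ := Nat.exists_prime_and_dvd hne
    have hpN' : (p : ℤ) ∣ (N : ℤ) :=
      (Int.natCast_dvd_natCast.2 hpd).trans (Int.gcd_dvd_left _ _)
    have hpS : (p : ℤ) ∣ S := (Int.natCast_dvd_natCast.2 hpd).trans (Int.gcd_dvd_right _ _)
    have hpN : p ∣ N := by exact_mod_cast hpN'
    have hpi := Nat.prime_iff_prime_int.1 hp
    have hsp := hQ p hp hpN
    have y1 := not_dvd_im hD hz hp (h1 ▸ hpN)
    have y2 := not_dvd_im hD hz' hp (h1' ▸ hpN)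
    have hr := hρ p hp hpN
    have hfin : ∀ u : ℤ, (p : ℤ) ∣ z.im * z'.im * u → (p : ℤ) ∣ u := by
      intro u hu
      rcases hpi.dvd_or_dvd hu with h | h
      · rcases hpi.dvd_or_dvd h with h | h
        · exact absurd h y1
        · exact absurd h y2
      · exact h
    have hend : (p : ℤ) ∣ t - 2 * ρ p → False := by
      intro h
      apply hsp.2.2.1
      have e : t ^ 2 - 4 * c = (t - 2 * ρ p) * (t - 2 * ρ p) - 4 * (ρ p ^ 2 - t * ρ p + c) := by
        ring
      rw [e]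
      exact dvd_sub (h.mul_right _) (hr.mul_left _)
    by_cases hl : lat p (ρ p) z
    · have hl' := (hT p hp hpN).1 hl
      unfold lat at hl hl'
      apply hend
      apply hfin
      have e : z.im * z'.im * (t - 2 * ρ p) = S - (z.re + ρ p * z.im) * z'.im -
          (z'.re + ρ p * z'.im) * z.im := by rw [hS]; ring
      rw [e]
      exact dvd_sub (dvd_sub hpS (hl.mul_right _)) (hl'.mul_right _)
    · have hl' : ¬ lat p (ρ p) z' := fun h => hl ((hT p hp hpN).2 h)
      unfold lat at hl hl'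
      have other : ∀ w : Qd t c, (p : ℤ) ∣ w.re ^ 2 + t * w.re * w.im + c * w.im ^ 2 →
          ¬ (p : ℤ) ∣ w.re + ρ p * w.im → (p : ℤ) ∣ w.re + (t - ρ p) * w.im := by
        intro w hw hnw
        have e : (w.re + ρ p * w.im) * (w.re + (t - ρ p) * w.im) =
            (w.re ^ 2 + t * w.re * w.im + c * w.im ^ 2) -
              w.im ^ 2 * (ρ p ^ 2 - t * ρ p + c) := by ring
        have h2 : (p : ℤ) ∣ (w.re + ρ p * w.im) * (w.re + (t - ρ p) * w.im) := by
          rw [e]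
          exact dvd_sub hw (hr.mul_left _)
        rcases hpi.dvd_or_dvd h2 with h | h
        · exact absurd h hnw
        · exact h
      have o1 := other z (by rw [← n1]; exact hpN') hl
      have o2 := other z' (by rw [← n2]; exact hpN') hl'
      apply hend
      apply hfin
      have e : z.im * z'.im * (t - 2 * ρ p) = -(S - (z.re + (t - ρ p) * z.im) * z'.im -
          (z'.re + (t - ρ p) * z'.im) * z.im) := by rw [hS]; ring
      rw [e, dvd_neg]
      exact dvd_sub (dvd_sub hpS (o1.mul_right _)) (o2.mul_right _)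
  exact hcop.dvd_of_dvd_mul_right hmul

/-- at most `6 * 2^ω(N)` primitive elements of norm `N` -/
lemma card_norm_le (hD : t ^ 2 < 4 * c) {N : ℕ} (hN : 0 < N) (hQ : QP (Sp t c) N)
    (F : Finset (Qd t c)) (hF : ∀ z ∈ F, prim z ∧ nm z = N) :
    F.card ≤ 6 * 2 ^ N.primeFactors.card := by
  classical
  have hex : ∀ p : ℕ, ∃ r : ℤ, p.Prime → p ∣ N → (p : ℤ) ∣ r ^ 2 - t * r + c := by
    intro p
    by_cases h : p.Prime ∧ p ∣ N
    · obtain ⟨r, hr⟩ := (hQ p h.1 h.2).2.2.2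
      exact ⟨r, fun _ _ => hr⟩
    · exact ⟨0, fun h1 h2 => absurd ⟨h1, h2⟩ h⟩
  choose ρ hρ using hex
  let T : Qd t c → Finset ℕ := fun z => N.primeFactors.filter (fun p => lat p (ρ p) z)
  have hmaps : ∀ z ∈ F, T z ∈ N.primeFactors.powerset := by
    intro z _
    rw [mem_powerset]
    exact filter_subset _ _
  rw [Finset.card_eq_sum_card_fiberwise hmaps]
  have h6 : ∀ A ∈ N.primeFactors.powerset, (F.filter (fun z => T z = A)).card ≤ 6 := by
    intro A _
    by_cases hne : (F.filter (fun z => T z = A)).Nonempty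
    · obtain ⟨z₀, hz₀⟩ := hne
      rw [mem_filter] at hz₀
      refine card_le_six hD hN (hF z₀ hz₀.1).2 _ ?_
      intro z hz
      rw [mem_filter] at hz
      refine ⟨(hF z hz.1).2, ?_⟩
      refine dvd_dt hD hN hQ ρ hρ (hF z₀ hz₀.1).1 (hF z hz.1).1 (hF z₀ hz₀.1).2 (hF z hz.1).2 ?_
      intro p hp hpN
      have hpm : p ∈ N.primeFactors := Nat.mem_primeFactors.2 ⟨hp, hpN, hN.ne'⟩
      have e1 : T z₀ = T z := by rw [hz₀.2, hz.2]
      have e2 : p ∈ T z₀ ↔ p ∈ T z := by rw [e1]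
      simp only [T, mem_filter, hpm, true_and] at e2
      exact e2
    · rw [not_nonempty_iff_eq_empty] at hne
      rw [hne, card_empty]
      exact Nat.zero_le _
  refine (Finset.sum_le_sum h6).trans (le_of_eq ?_)
  rw [sum_const, card_powerset, smul_eq_mul, mul_comm]

end Pool.Agent.W109.GA
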