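import Pool.Agent.W78.GA.Basic
import Pool.Agent.H376R2.MR.Selw

/-!
Project GA (helper78), task GA-15 (helper109): Selberg weights of dimension one for a set of primes
with the density `(2p-1)/p^2`. Part 1: the weights.
-/

set_option autoImplicit false

namespace Pool.Agent.W109.GA

open Finset
open scoped ArithmeticFunction.Moebius
open Pool.Agent.H376R2.MR Pool.Agent.W78.GA

/-- all prime divisors are in the set `P` -/
def QP (P : ℕ → Prop) (n : ℕ) : Prop := ∀ p : ℕ, p.Prime → p ∣ n → P p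

variable {P : ℕ → Prop}

lemma QP_one : QP P 1 := fun _ hp h => absurd (Nat.dvd_one.1 h) hp.one_lt.ne'

lemma QP_dvd {a b : ℕ} (h : QP P b) (hab : a ∣ b) : QP P a := fun p hp hpa => h p hp (hpa.trans hab)

lemma QP_mul {a b : ℕ} : QP P (a * b) ↔ QP P a ∧ QP P b := by
  constructor
  · exact fun h => ⟨QP_dvd h (Dvd.intro _ rfl), QP_dvd h (Dvd.intro_left _ rfl)⟩
  · rintro ⟨h1, h2⟩ p hp hpd
    rcases (Nat.Prime.dvd_mul hp).1 hpd with h | h
    · exact h1 p hp h
    · exact h2 p hp h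

/-- the density -/
noncomputable def G0 : ArithmeticFunction ℝ :=
  ArithmeticFunction.prodPrimeFactors (fun p => (2 * (p : ℝ) - 1) / (p : ℝ) ^ 2)

/-- the inverse of the density -/
noncomputable def GI : ArithmeticFunction ℝ :=
  ArithmeticFunction.prodPrimeFactors (fun p => (p : ℝ) ^ 2 / (2 * (p : ℝ) - 1))

/-- `h = g/(1-g)` -/
noncomputable def H0 : ArithmeticFunction ℝ :=
  ArithmeticFunction.prodPrimeFactors (fun p => (2 * (p : ℝ) - 1) / ((p : ℝ) - 1) ^ 2)

/-- `1/h` -/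
noncomputable def HI : ArithmeticFunction ℝ :=
  ArithmeticFunction.prodPrimeFactors (fun p => ((p : ℝ) - 1) ^ 2 / (2 * (p : ℝ) - 1))

lemma G0_apply {n : ℕ} (hn : n ≠ 0) :
    G0 n = ∏ p ∈ n.primeFactors, (2 * (p : ℝ) - 1) / (p : ℝ) ^ 2 :=
  ArithmeticFunction.prodPrimeFactors_apply hn

lemma GI_apply {n : ℕ} (hn : n ≠ 0) :
    GI n = ∏ p ∈ n.primeFactors, (p : ℝ) ^ 2 / (2 * (p : ℝ) - 1) :=
  ArithmeticFunction.prodPrimeFactors_apply hn

lemma H0_apply {n : ℕ} (hn : n ≠ 0) :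
    H0 n = ∏ p ∈ n.primeFactors, (2 * (p : ℝ) - 1) / ((p : ℝ) - 1) ^ 2 :=
  ArithmeticFunction.prodPrimeFactors_apply hn

lemma HI_apply {n : ℕ} (hn : n ≠ 0) :
    HI n = ∏ p ∈ n.primeFactors, ((p : ℝ) - 1) ^ 2 / (2 * (p : ℝ) - 1) :=
  ArithmeticFunction.prodPrimeFactors_apply hn

lemma G0_mult : G0.IsMultiplicative := ArithmeticFunction.IsMultiplicative.prodPrimeFactors _

lemma H0_mult : H0.IsMultiplicative := ArithmeticFunction.IsMultiplicative.prodPrimeFactors _

lemma HI_mult : HI.IsMultiplicative := ArithmeticFunction.IsMultiplicative.prodPrimeFactors _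

lemma gd_eq {n : ℕ} (hn : n ≠ 0) : gd n = G0 n := by rw [G0_apply hn]; rfl

lemma two_le_of {n p : ℕ} (hp : p ∈ n.primeFactors) : (2 : ℝ) ≤ p := by
  exact_mod_cast (Nat.prime_of_mem_primeFactors hp).two_le

lemma G0_mul_GI {n : ℕ} (hn : n ≠ 0) : G0 n * GI n = 1 := by
  rw [G0_apply hn, GI_apply hn, ← Finset.prod_mul_distrib]
  apply Finset.prod_eq_one
  intro p hp
  have h := two_le_of hp
  have h1 : (2 * (p : ℝ) - 1) ≠ 0 := by linarith
  have h2 : (p : ℝ) ≠ 0 := by linarith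
  field_simp

lemma H0_mul_HI {n : ℕ} (hn : n ≠ 0) : H0 n * HI n = 1 := by
  rw [H0_apply hn, HI_apply hn, ← Finset.prod_mul_distrib]
  apply Finset.prod_eq_one
  intro p hp
  have h := two_le_of hp
  have h1 : (2 * (p : ℝ) - 1) ≠ 0 := by linarith
  have h2 : (p : ℝ) - 1 ≠ 0 := by linarith
  field_simp

lemma G0_nonneg (n : ℕ) : 0 ≤ G0 n := by
  by_cases hn : n = 0
  · rw [hn, ArithmeticFunction.map_zero]
  rw [G0_apply hn]
  apply Finset.prod_nonneg
  intro p hp
  have h := two_le_of hp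
  apply div_nonneg (by linarith) (by positivity)

lemma H0_nonneg (n : ℕ) : 0 ≤ H0 n := by
  by_cases hn : n = 0
  · rw [hn, ArithmeticFunction.map_zero]
  rw [H0_apply hn]
  apply Finset.prod_nonneg
  intro p hp
  have h := two_le_of hp
  apply div_nonneg (by linarith) (by positivity)

lemma GI_nonneg (n : ℕ) : 0 ≤ GI n := by
  by_cases hn : n = 0
  · rw [hn, ArithmeticFunction.map_zero]
  rw [GI_apply hn]
  apply Finset.prod_nonneg
  intro p hp
  have h := two_le_of hp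
  apply div_nonneg (by positivity) (by linarith)

/-- `∑_{k ∣ n} h(k) = h(n)/g(n)` for squarefree `n` -/
lemma sum_H0 {n : ℕ} (hn : Squarefree n) : ∑ k ∈ n.divisors, H0 k = GI n * H0 n := by
  rw [← ArithmeticFunction.IsMultiplicative.prodPrimeFactors_one_add_of_squarefree H0_mult hn,
    GI_apply hn.ne_zero, H0_apply hn.ne_zero, ← Finset.prod_mul_distrib]
  apply Finset.prod_congr rfl
  intro p hp
  have hpp := Nat.prime_of_mem_primeFactors hp
  have h := two_le_of hp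
  rw [H0_apply hpp.ne_zero, Nat.Prime.primeFactors hpp, Finset.prod_singleton]
  have h1 : (2 * (p : ℝ) - 1) ≠ 0 := by linarith
  have h2 : (p : ℝ) - 1 ≠ 0 := by linarith
  field_simp
  ring

/-- `∑_{k ∣ n} 1/h(k) = 1/g(n)` for squarefree `n` -/
lemma sum_HI {n : ℕ} (hn : Squarefree n) : ∑ k ∈ n.divisors, HI k = GI n := by
  rw [← ArithmeticFunction.IsMultiplicative.prodPrimeFactors_one_add_of_squarefree HI_mult hn,
    GI_apply hn.ne_zero]
  apply Finset.prod_congr rfl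
  intro p hp
  have hpp := Nat.prime_of_mem_primeFactors hp
  have h := two_le_of hp
  rw [HI_apply hpp.ne_zero, Nat.Prime.primeFactors hpp, Finset.prod_singleton]
  have h1 : (2 * (p : ℝ) - 1) ≠ 0 := by linarith
  rw [eq_div_iff h1, add_mul, div_mul_cancel₀ _ h1]
  ring

open scoped Classical in
/-- the weight `h` on the squarefree integers composed of primes of `P` -/
noncomputable def hs (P : ℕ → Prop) (m : ℕ) : ℝ := if Squarefree m ∧ QP P m then H0 m else 0

lemma hs_nonneg (m : ℕ) : 0 ≤ hs P m := by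
  unfold hs; split_ifs
  · exact H0_nonneg m
  · exact le_rfl

lemma hs_of {m : ℕ} (h : Squarefree m) (h' : QP P m) : hs P m = H0 m := if_pos ⟨h, h'⟩

lemma hs_not {m : ℕ} (h : ¬ (Squarefree m ∧ QP P m)) : hs P m = 0 := if_neg h

lemma hs_one : hs P 1 = 1 := by
  rw [hs_of squarefree_one QP_one]
  exact H0_mult.1

lemma hs_mul {a b : ℕ} (h : Nat.Coprime a b) : hs P (a * b) = hs P a * hs P b := by
  by_cases ha : Squarefree a ∧ QP P a
  · by_cases hb : Squarefree b ∧ QP P b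
    · rw [hs_of ((Nat.squarefree_mul h).2 ⟨ha.1, hb.1⟩) (QP_mul.2 ⟨ha.2, hb.2⟩), hs_of ha.1 ha.2,
        hs_of hb.1 hb.2]
      exact H0_mult.2 h
    · rw [hs_not (fun h2 => hb ⟨((Nat.squarefree_mul h).1 h2.1).2, (QP_mul.1 h2.2).2⟩), hs_not hb,
        mul_zero]
  · rw [hs_not (fun h2 => ha ⟨((Nat.squarefree_mul h).1 h2.1).1, (QP_mul.1 h2.2).1⟩), hs_not ha,
      zero_mul]

/-- the total mass -/
noncomputable def hG (P : ℕ → Prop) (D : ℕ) : ℝ := ∑ n ∈ Icc 1 D, hs P n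

lemma one_le_hG {D : ℕ} (hD : 1 ≤ D) : 1 ≤ hG P D := by
  have h1 : hs P 1 ≤ hG P D :=
    Finset.single_le_sum (f := hs P) (fun i _ => hs_nonneg i) (Finset.mem_Icc.2 ⟨le_rfl, hD⟩)
  rwa [hs_one] at h1

lemma hG_nonneg (D : ℕ) : 0 ≤ hG P D := Finset.sum_nonneg fun i _ => hs_nonneg i

/-- the key bound for `|l d| ≤ 1` -/
theorem h_key (D d : ℕ) (hd : Squarefree d) :
    GI d * ∑ m ∈ (Icc 1 D).filter (fun m => d ∣ m), hs P m ≤ hG P D := by
  by_cases hq : QP P d
  swap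
  · have h0 : ∑ m ∈ (Icc 1 D).filter (fun m => d ∣ m), hs P m = 0 := by
      apply Finset.sum_eq_zero
      intro m hm
      rw [Finset.mem_filter] at hm
      exact hs_not (fun h => hq (QP_dvd h.2 hm.2))
    rw [h0, mul_zero]
    exact hG_nonneg D
  have hd0 : 0 < d := Nat.pos_of_ne_zero hd.ne_zero
  set T : Finset ℕ := (Icc 1 D).filter (fun m => d ∣ m ∧ Squarefree m) with hT
  have h1 : ∑ m ∈ (Icc 1 D).filter (fun m => d ∣ m), hs P m = ∑ m ∈ T, hs P m := by
    symm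
    apply Finset.sum_subset
    · intro m hm
      rw [hT, Finset.mem_filter] at hm
      exact Finset.mem_filter.2 ⟨hm.1, hm.2.1⟩
    · intro m hm hmT
      rw [Finset.mem_filter] at hm
      exact hs_not (fun h => hmT (Finset.mem_filter.2 ⟨hm.1, hm.2, h.1⟩))
  have h2 : ∀ m ∈ T, GI d * hs P m = ∑ k ∈ d.divisors, hs P (k * (m / d)) := by
    intro m hm
    rw [hT, Finset.mem_filter] at hm
    obtain ⟨_, ⟨c, rfl⟩, hs'⟩ := hm
    have hcop := sw_coprime hs'
    rw [Nat.mul_div_cancel_left c hd0, hs_mul hcop]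
    have e1 : ∀ k ∈ d.divisors, hs P (k * c) = H0 k * hs P c := by
      intro k hk
      have hkd := Nat.dvd_of_mem_divisors hk
      rw [hs_mul (Nat.Coprime.coprime_dvd_left hkd hcop),
        hs_of (hd.squarefree_of_dvd hkd) (QP_dvd hq hkd)]
    rw [Finset.sum_congr rfl e1, ← Finset.sum_mul, sum_H0 hd, hs_of hd hq]
    ring
  rw [h1, Finset.mul_sum, Finset.sum_congr rfl h2, ← Finset.sum_product']
  have hinj : Set.InjOn (fun p : ℕ × ℕ => p.2 * (p.1 / d)) (T ×ˢ d.divisors : Finset (ℕ × ℕ)) := by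
    rintro ⟨m, k⟩ hp ⟨m', k'⟩ hp' heq
    rw [Finset.mem_coe, Finset.mem_product, hT, Finset.mem_filter] at hp hp'
    obtain ⟨⟨_, ⟨c, hc⟩, hs⟩, hk⟩ := hp
    obtain ⟨⟨_, ⟨c', hc'⟩, hs'⟩, hk'⟩ := hp'
    simp only at hc hc' hs hs' hk hk' heq
    subst hc
    subst hc'
    rw [Nat.mul_div_cancel_left c hd0, Nat.mul_div_cancel_left c' hd0] at heq
    have hkd := Nat.dvd_of_mem_divisors hk
    have hkd' := Nat.dvd_of_mem_divisors hk'
    have g1 : (k * c).gcd d = k := by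
      rw [Nat.Coprime.gcd_mul_right_cancel k (sw_coprime hs).symm]
      exact Nat.gcd_eq_left hkd
    have g2 : (k' * c').gcd d = k' := by
      rw [Nat.Coprime.gcd_mul_right_cancel k' (sw_coprime hs').symm]
      exact Nat.gcd_eq_left hkd'
    have hkk : k = k' := by rw [← g1, ← g2, heq]
    subst hkk
    have hk0 : 0 < k := Nat.pos_of_mem_divisors hk
    have hcc : c = c' := Nat.eq_of_mul_eq_mul_left hk0 heq
    subst hcc
    rfl
  have h3 : ∑ p ∈ T ×ˢ d.divisors, hs P (p.2 * (p.1 / d)) =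
      ∑ n ∈ (T ×ˢ d.divisors).image (fun p : ℕ × ℕ => p.2 * (p.1 / d)), hs P n := by
    rw [Finset.sum_image hinj]
  rw [h3]
  apply Finset.sum_le_sum_of_subset_of_nonneg
  · intro n hn
    obtain ⟨⟨m, k⟩, hp, rfl⟩ := Finset.mem_image.1 hn
    rw [Finset.mem_product, hT, Finset.mem_filter, Finset.mem_Icc] at hp
    obtain ⟨⟨⟨hm1, hmD⟩, ⟨c, hc⟩, hs⟩, hk⟩ := hp
    simp only at hm1 hmD hc hs hk ⊢
    subst hc
    rw [Nat.mul_div_cancel_left c hd0, Finset.mem_Icc]
    have hk0 : 0 < k := Nat.pos_of_mem_divisors hk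
    have hkd : k ≤ d := Nat.divisor_le hk
    have hc0 : 0 < c := by
      rcases Nat.eq_zero_or_pos c with h0 | h0
      · rw [h0, mul_zero] at hm1; omega
      · exact h0
    exact ⟨Nat.mul_pos hk0 hc0, (Nat.mul_le_mul_right c hkd).trans hmD⟩
  · intro n _ _
    exact hs_nonneg n

/-! ### the quadratic form -/

/-- the weights -/
noncomputable def hl (P : ℕ → Prop) (D d : ℕ) : ℝ :=
  GI d * (μ d : ℝ) * (hG P D)⁻¹ * ∑ m ∈ (Icc 1 D).filter (fun m => d ∣ m), hs P m

lemma hl_supp {D d : ℕ} (hd : hl P D d ≠ 0) : 1 ≤ d ∧ d ≤ D ∧ Squarefree d ∧ QP P d := by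
  unfold hl at hd
  have h2 : ((μ d : ℤ) : ℝ) ≠ 0 := by
    intro h; rw [h] at hd; simp at hd
  have h3 : ∑ m ∈ (Icc 1 D).filter (fun m => d ∣ m), hs P m ≠ 0 := by
    intro h; rw [h] at hd; simp at hd
  have h4 : Squarefree d := by
    by_contra hs
    rw [ArithmeticFunction.moebius_eq_zero_of_not_squarefree hs] at h2
    simp at h2
  obtain ⟨m, hm, hgm⟩ := Finset.exists_ne_zero_of_sum_ne_zero h3
  rw [Finset.mem_filter, Finset.mem_Icc] at hm
  refine ⟨Nat.pos_of_ne_zero h4.ne_zero, (Nat.le_of_dvd hm.1.1 hm.2).trans hm.1.2, h4, ?_⟩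
  have hq : QP P m := by
    by_contra hq
    exact hgm (hs_not (fun h => hq h.2))
  exact QP_dvd hq hm.2

theorem h_Y (D r : ℕ) (hr : r ∈ Icc 1 D) :
    ∑ d ∈ Icc 1 D, (if r ∣ d then hl P D d * G0 d else 0) = (μ r : ℝ) * hs P r * (hG P D)⁻¹ := by
  have h1 : ∀ d ∈ Icc 1 D, (if r ∣ d then hl P D d * G0 d else 0) =
      ∑ m ∈ Icc 1 D, (hG P D)⁻¹ * (hs P m * (if r ∣ d ∧ d ∣ m then (μ d : ℝ) else 0)) := by
    intro d hd
    rw [Finset.mem_Icc] at hd
    have hd0 : d ≠ 0 := by omega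
    have hgg := G0_mul_GI hd0
    by_cases hrd : r ∣ d
    · rw [if_pos hrd]
      unfold hl
      calc GI d * (μ d : ℝ) * (hG P D)⁻¹ * (∑ m ∈ (Icc 1 D).filter (fun m => d ∣ m), hs P m) * G0 d
          = (G0 d * GI d) * ((hG P D)⁻¹ * ((∑ m ∈ (Icc 1 D).filter (fun m => d ∣ m), hs P m) *
            (μ d : ℝ))) := by ring
        _ = (hG P D)⁻¹ * ((∑ m ∈ (Icc 1 D).filter (fun m => d ∣ m), hs P m) * (μ d : ℝ)) := by
            rw [hgg, one_mul]
        _ = _ := by
            rw [Finset.sum_filter, Finset.sum_mul, Finset.mul_sum]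
            refine Finset.sum_congr rfl fun m _ => ?_
            by_cases hdm : d ∣ m
            · rw [if_pos hdm, if_pos ⟨hrd, hdm⟩]
            · rw [if_neg hdm, if_neg (fun h => hdm h.2)]
              simp
    · rw [if_neg hrd]
      symm
      apply Finset.sum_eq_zero
      intro m _
      rw [if_neg (fun h => hrd h.1)]
      simp
  rw [Finset.sum_congr rfl h1, Finset.sum_comm]
  have h2 : ∀ m ∈ Icc 1 D, ∑ d ∈ Icc 1 D,
      (hG P D)⁻¹ * (hs P m * (if r ∣ d ∧ d ∣ m then (μ d : ℝ) else 0)) =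
      if m = r then (hG P D)⁻¹ * (hs P r * (μ r : ℝ)) else 0 := by
    intro m hm
    rw [← Finset.mul_sum, ← Finset.mul_sum]
    by_cases hs' : Squarefree m
    · rw [sw_moebius_sum D r m hr hm hs']
      by_cases hmr : m = r
      · rw [if_pos hmr, if_pos hmr, hmr]
      · rw [if_neg hmr, if_neg hmr]
        simp
    · have hg : hs P m = 0 := hs_not (fun h => hs' h.1)
      rw [hg, zero_mul, mul_zero]
      by_cases hmr : m = r
      · rw [if_pos hmr, ← hmr, hg]; simp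
      · rw [if_neg hmr]
  rw [Finset.sum_congr rfl h2, Finset.sum_ite_eq' (Icc 1 D) r, if_pos hr]
  ring

/-- `g([d,e])` for squarefree `d`, `e` -/
lemma gd_lcm {D d e : ℕ} (hd : Squarefree d) (he : Squarefree e) (hdD : d ∈ Icc 1 D) :
    gd (Nat.lcm d e) = ∑ r ∈ Icc 1 D, HI r *
      ((if r ∣ d then G0 d else 0) * (if r ∣ e then G0 e else 0)) := by
  have hd0 := hd.ne_zero
  have he0 := he.ne_zero
  have hg0 : d.gcd e ≠ 0 := Nat.gcd_ne_zero_left hd0
  have hl0 : d.lcm e ≠ 0 := Nat.lcm_ne_zero hd0 he0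
  have h1 := G0_mult.lcm_apply_mul_gcd_apply (x := d) (y := e)
  have h2 := G0_mul_GI hg0
  have h3 := sum_HI (hd.squarefree_of_dvd (Nat.gcd_dvd_left d e))
  have h4 : ∑ r ∈ Icc 1 D, HI r * ((if r ∣ d then G0 d else 0) * (if r ∣ e then G0 e else 0)) =
      ∑ r ∈ (d.gcd e).divisors, HI r * (G0 d * G0 e) := by
    rw [Finset.mem_Icc] at hdD
    symm
    have hsub : (d.gcd e).divisors ⊆ Icc 1 D := by
      intro r hr
      rw [Nat.mem_divisors] at hr
      rw [Finset.mem_Icc]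
      have := Nat.le_of_dvd hdD.1 (hr.1.trans (Nat.gcd_dvd_left d e))
      have h0 : 0 < r := Nat.pos_of_dvd_of_pos hr.1 (Nat.pos_of_ne_zero hg0)
      omega
    rw [← Finset.sum_subset hsub]
    · apply Finset.sum_congr rfl
      intro r hr
      rw [Nat.mem_divisors] at hr
      rw [if_pos (hr.1.trans (Nat.gcd_dvd_left d e)), if_pos (hr.1.trans (Nat.gcd_dvd_right d e))]
    · intro r _ hr
      by_cases ha : r ∣ d
      · by_cases hb : r ∣ e
        · exact absurd (Nat.mem_divisors.2 ⟨Nat.dvd_gcd ha hb, hg0⟩) hr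
        · rw [if_neg hb, mul_zero, mul_zero]
      · rw [if_neg ha, zero_mul, mul_zero]
  rw [h4, ← Finset.sum_mul, h3, gd_eq hl0, ← h1]
  calc G0 (d.lcm e) = G0 (d.lcm e) * (G0 (d.gcd e) * GI (d.gcd e)) := by rw [h2, mul_one]
    _ = _ := by ring

theorem h_form (D : ℕ) (hD : 1 ≤ D) :
    ∑ d ∈ Icc 1 D, ∑ e ∈ Icc 1 D, hl P D d * hl P D e * gd (Nat.lcm d e) = (hG P D)⁻¹ := by
  have hG1 := one_le_hG (P := P) hD
  have h1 : ∀ d ∈ Icc 1 D, ∀ e ∈ Icc 1 D, hl P D d * hl P D e * gd (Nat.lcm d e) =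
      ∑ r ∈ Icc 1 D, HI r * ((if r ∣ d then hl P D d * G0 d else 0) *
        (if r ∣ e then hl P D e * G0 e else 0)) := by
    intro d hd e he
    by_cases hld : hl P D d = 0
    · rw [hld, zero_mul, zero_mul]
      symm
      apply Finset.sum_eq_zero
      intro r _
      simp
    by_cases hle : hl P D e = 0
    · rw [hle, mul_zero, zero_mul]
      symm
      apply Finset.sum_eq_zero
      intro r _
      simp
    rw [gd_lcm (hl_supp hld).2.2.1 (hl_supp hle).2.2.1 hd, Finset.mul_sum]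
    refine Finset.sum_congr rfl fun r _ => ?_
    split_ifs <;> ring
  have h2 : ∑ d ∈ Icc 1 D, ∑ e ∈ Icc 1 D, hl P D d * hl P D e * gd (Nat.lcm d e) =
      ∑ r ∈ Icc 1 D, HI r *
        (∑ d ∈ Icc 1 D, (if r ∣ d then hl P D d * G0 d else 0)) ^ 2 := by
    calc ∑ d ∈ Icc 1 D, ∑ e ∈ Icc 1 D, hl P D d * hl P D e * gd (Nat.lcm d e)
        = ∑ d ∈ Icc 1 D, ∑ e ∈ Icc 1 D, ∑ r ∈ Icc 1 D, HI r *
          ((if r ∣ d then hl P D d * G0 d else 0) * (if r ∣ e then hl P D e * G0 e else 0)) :=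
          Finset.sum_congr rfl fun d hd => Finset.sum_congr rfl fun e he => h1 d hd e he
      _ = ∑ r ∈ Icc 1 D, ∑ d ∈ Icc 1 D, ∑ e ∈ Icc 1 D, HI r *
          ((if r ∣ d then hl P D d * G0 d else 0) * (if r ∣ e then hl P D e * G0 e else 0)) := by
          rw [Finset.sum_comm]
          rw [Finset.sum_congr rfl fun e _ => Finset.sum_comm]
          rw [Finset.sum_comm]
          exact Finset.sum_congr rfl fun r _ => Finset.sum_comm
      _ = _ := by
          refine Finset.sum_congr rfl fun r _ => ?_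
          rw [sq, Finset.sum_mul_sum, Finset.mul_sum]
          refine Finset.sum_congr rfl fun d _ => ?_
          rw [Finset.mul_sum]
  rw [h2]
  have h3 : ∀ r ∈ Icc 1 D, HI r *
        (∑ d ∈ Icc 1 D, (if r ∣ d then hl P D d * G0 d else 0)) ^ 2 =
        hs P r * ((hG P D)⁻¹) ^ 2 := by
    intro r hr
    rw [h_Y D r hr]
    by_cases hq : Squarefree r ∧ QP P r
    swap
    · rw [hs_not hq]; ring
    have e1 := H0_mul_HI hq.1.ne_zero
    have e2 : ((μ r : ℤ) : ℝ) ^ 2 = 1 := by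
      have := ArithmeticFunction.moebius_sq_eq_one_of_squarefree hq.1
      exact_mod_cast this
    rw [hs_of hq.1 hq.2]
    calc HI r * ((μ r : ℝ) * H0 r * (hG P D)⁻¹) ^ 2 =
        ((μ r : ℝ) ^ 2) * (H0 r * HI r) * (H0 r * ((hG P D)⁻¹) ^ 2) := by ring
      _ = _ := by rw [e1, e2, one_mul, one_mul]
  rw [Finset.sum_congr rfl h3, ← Finset.sum_mul]
  show hG P D * ((hG P D)⁻¹) ^ 2 = (hG P D)⁻¹
  have : hG P D ≠ 0 := by linarith
  field_simp

lemma hl_one {D : ℕ} (hD : 1 ≤ D) : hl P D 1 = 1 := by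
  unfold hl
  have : (Icc 1 D).filter (fun m => 1 ∣ m) = Icc 1 D :=
    Finset.filter_true_of_mem (fun m _ => one_dvd m)
  rw [this]
  have h0 := one_le_hG (P := P) hD
  have h1 : GI 1 = 1 := (ArithmeticFunction.IsMultiplicative.prodPrimeFactors _).1
  show GI 1 * ((μ 1 : ℤ) : ℝ) * (hG P D)⁻¹ * hG P D = 1
  rw [ArithmeticFunction.moebius_apply_one, h1]
  push_cast
  have : hG P D ≠ 0 := by linarith
  field_simp

lemma hl_le {D : ℕ} (hD : 1 ≤ D) (d : ℕ) : |hl P D d| ≤ 1 := by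
  have hG1 := one_le_hG (P := P) hD
  have hG0 : 0 < hG P D := by linarith
  by_cases hs' : Squarefree d
  · have h1 := h_key (P := P) D d hs'
    have hnn : 0 ≤ ∑ m ∈ (Icc 1 D).filter (fun m => d ∣ m), hs P m :=
      Finset.sum_nonneg fun m _ => hs_nonneg m
    have h2 : |((μ d : ℤ) : ℝ)| = 1 := by
      have := ArithmeticFunction.moebius_sq_eq_one_of_squarefree hs'
      have h3 : ((μ d : ℤ) : ℝ) ^ 2 = 1 := by exact_mod_cast this
      rw [← sq_abs] at h3
      nlinarith [abs_nonneg ((μ d : ℤ) : ℝ)]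
    unfold hl
    rw [abs_mul, abs_mul, abs_mul, h2, abs_of_nonneg (GI_nonneg d), mul_one,
      abs_of_pos (inv_pos.2 hG0), abs_of_nonneg hnn]
    calc GI d * (hG P D)⁻¹ * ∑ m ∈ (Icc 1 D).filter (fun m => d ∣ m), hs P m =
        (hG P D)⁻¹ * (GI d * ∑ m ∈ (Icc 1 D).filter (fun m => d ∣ m), hs P m) := by ring
      _ ≤ (hG P D)⁻¹ * hG P D := mul_le_mul_of_nonneg_left h1 (inv_pos.2 hG0).le
      _ = 1 := inv_mul_cancel₀ hG0.ne'
  · unfold hl
    rw [ArithmeticFunction.moebius_eq_zero_of_not_squarefree hs']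
    simp

/-! ### the mass and the sum of `2^ω(N)/N` -/

open scoped Classical in
/-- `∑_{N ≤ D} 2^{ω(N)}/N` over the integers composed of primes of `P` -/
noncomputable def tG (P : ℕ → Prop) (D : ℕ) : ℝ :=
  ∑ n ∈ (Icc 1 D).filter (fun n => QP P n), 2 ^ (n.primeFactors.card) * (n : ℝ)⁻¹

lemma two_pow_sw_g {r : ℕ} (hr : Squarefree r) :
    (2 : ℝ) ^ r.primeFactors.card * sw_g r ≤ H0 r := by
  have h1 : sw_g r = ∏ p ∈ r.primeFactors, 1 / ((p : ℝ) - 1) := by
    have h2 := sw_phi r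
    have h3 : (r : ℝ) = ∏ p ∈ r.primeFactors, (p : ℝ) := by
      rw [← Nat.cast_prod, Nat.prod_primeFactors_of_squarefree hr]
    unfold sw_g
    rw [if_pos hr, h2]
    nth_rewrite 1 [h3]
    rw [← Finset.prod_mul_distrib, one_div, ← Finset.prod_inv_distrib]
    apply Finset.prod_congr rfl
    intro p hp
    have h := two_le_of hp
    have h4 : (p : ℝ) ≠ 0 := by linarith
    rw [one_div]
    congr 1
    field_simp
  rw [h1, ← Finset.prod_const, ← Finset.prod_mul_distrib, H0_apply hr.ne_zero]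
  apply Finset.prod_le_prod
  · intro p hp
    have h := two_le_of hp
    exact mul_nonneg (by norm_num) (div_nonneg zero_le_one (by linarith))
  · intro p hp
    have h := two_le_of hp
    have h5 : (0 : ℝ) < (p : ℝ) - 1 := by linarith
    rw [mul_one_div, div_le_div_iff₀ h5 (by positivity)]
    nlinarith

theorem tG_le (D : ℕ) : tG P D ≤ hG P D := by
  classical
  unfold tG hG
  have hmaps : ∀ n ∈ (Icc 1 D).filter (fun n => QP P n), sw_rad n ∈ Icc 1 D := by
    intro n hn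
    rw [Finset.mem_filter, Finset.mem_Icc] at hn
    rw [Finset.mem_Icc]
    have h2 := Nat.le_of_dvd (by omega) (sw_rad_dvd n)
    have h3 : 0 < sw_rad n := Nat.pos_of_ne_zero (sw_rad_squarefree n).ne_zero
    omega
  rw [← Finset.sum_fiberwise_of_maps_to hmaps]
  apply Finset.sum_le_sum
  intro r hr
  by_cases hq : Squarefree r ∧ QP P r
  · rw [hs_of hq.1 hq.2]
    refine le_trans ?_ (two_pow_sw_g hq.1)
    refine le_trans ?_ (mul_le_mul_of_nonneg_left (sw_fiber D r) (by positivity))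
    rw [Finset.mul_sum]
    have h1 : ∑ n ∈ ((Icc 1 D).filter (fun n => QP P n)).filter (fun n => sw_rad n = r),
        (2 : ℝ) ^ n.primeFactors.card * (n : ℝ)⁻¹ =
        ∑ n ∈ ((Icc 1 D).filter (fun n => QP P n)).filter (fun n => sw_rad n = r),
        (2 : ℝ) ^ r.primeFactors.card * (n : ℝ)⁻¹ := by
      apply Finset.sum_congr rfl
      intro n hn
      rw [Finset.mem_filter] at hn
      rw [← hn.2, sw_rad_primeFactors]
    rw [h1]
    apply Finset.sum_le_sum_of_subset_of_nonneg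
    · intro n hn
      rw [Finset.mem_filter, Finset.mem_filter] at hn
      exact Finset.mem_filter.2 ⟨hn.1.1, hn.2⟩
    · intro n _ _
      positivity
  · rw [hs_not hq]
    apply le_of_eq
    apply Finset.sum_eq_zero
    intro n hn
    exfalso
    rw [Finset.mem_filter, Finset.mem_filter] at hn
    apply hq
    rw [← hn.2]
    exact ⟨sw_rad_squarefree n, QP_dvd hn.1.2 (sw_rad_dvd n)⟩

end Pool.Agent.W109.GA
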